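import Mathlib
import Pool.Agent.H560.SI.StmB
import Pool.Agent.H523.RH1

/-!
# The parity problem in progressions of level `2 / 3` over `F_q[X]`, `q` even (helper560): statements

`Q = M m` with `m` irreducible, `Q F = a² + X s²` of odd degree `n + deg Q = 2 N + 1`, `F ≡ a mod M`. The
polynomial `s` does not change in the window `F + Q t²`, `deg t < L`, and all `F + Q t²` are `≡ a mod M`.
Every monic `s` of degree `N` in one class mod `M` occurs. If all irreducible factors of `s` have degree at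
most `L / 8`, the Möbius function cancels in the window.
-/

set_option autoImplicit false

namespace Pool.Agent.H560.AR

open Polynomial
open scoped Classical
open Pool.Agent.H985.Chow (mob)
open Pool.Agent.H985.Par (Sft)
open Pool.Agent.H694.Typ (Mn Irn PU)
open Pool.Agent.H560.SI (Smt)
open Pool.Agent.H523.RH (Phi)

/-- The monic `f` of degree `n` with `f ≡ a mod M`. -/
noncomputable def Cl (K : Type) [Field K] [Fintype K] (n : ℕ) (M a : K[X]) : Finset K[X] :=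
  (Mn K n).filter (fun f => M ∣ f - a)

/-- The squarefree monic `s` of degree `N` with `s ≡ S mod M` whose irreducible factors have degree at
most `y`. -/
noncomputable def SmC (K : Type) [Field K] [Fintype K] (N y : ℕ) (M S : K[X]) : Finset K[X] :=
  (Mn K N).filter (fun s => M ∣ s - S ∧ Squarefree s ∧ Smt y s)

/-- The number of pairs of members of a family which are congruent mod `M`. -/
noncomputable def PrC {K : Type} [Field K] {ι : Type} (I : Finset ι) (S : ι → K[X]) (M : K[X]) : ℕ :=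
  ((I ×ˢ I).filter (fun p => M ∣ S p.1 - S p.2)).card

/-- **Task WBQ.**  The window bound for a squarefree `Q`. -/
def S_wbQ : Prop :=
  ∀ (K : Type) [Field K] [Fintype K] [CharP K 2] (lam : ℝ), 0 < lam →
    ∃ κ c : ℝ, 0 < κ ∧ 0 < c ∧ ∃ n₀ : ℕ, ∀ n : ℕ, n₀ ≤ n → ∀ (N w L L' : ℕ) (Q s F D : K[X]),
      n + w = 2 * N + 1 → lam * n ≤ (L : ℝ) → 2 * L + w ≤ n →
      Q.Monic → Squarefree Q → Q.natDegree = w → s.Monic → s.natDegree = N → Squarefree s →
      Smt (L / 8) s → IsCoprime Q s → F.Monic → F.natDegree = n → derivative (Q * F) = s ^ 2 →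
      D.Monic → (D.natDegree : ℝ) ≤ κ * n → D.natDegree + L' = L →
      |∑ᶠ v ∈ {v : K[X] | v.degree < (L' : WithBot ℕ)}, (mob (F + Q * (D * v) ^ 2) : ℝ)| ≤
        (Fintype.card K : ℝ) ^ ((L : ℝ) - c * n)

/-- **Task RTQ.**  Every irreducible `P` which does not divide `Q` divides `F + Q t²` for exactly one
class of `t`. -/
def S_rtQ : Prop :=
  ∀ (K : Type) [Field K] [Fintype K] [CharP K 2] (Q F P : K[X]), P.Monic → Irreducible P → ¬ P ∣ Q →
    ∃ r : K[X], r.degree < P.degree ∧ ∀ t : K[X], P ∣ F + Q * t ^ 2 ↔ P ∣ t - r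

/-- `A` is a set of smooth `s` whose windows lie in `G`. -/
def WinA (K : Type) [Field K] (n N w L : ℕ) (Q : K[X]) (A G : Finset K[X]) : Prop :=
  n + w = 2 * N + 1 ∧ 2 * L + w ≤ n ∧ Q.Monic ∧ Squarefree Q ∧ Q.natDegree = w ∧
    ∀ s ∈ A, s.Monic ∧ s.natDegree = N ∧ Squarefree s ∧ Smt (L / 8) s ∧ IsCoprime Q s ∧
      ∃ F : K[X], F.Monic ∧ F.natDegree = n ∧ derivative (Q * F) = s ^ 2 ∧
        ∀ t : K[X], t.degree < (L : WithBot ℕ) → F + Q * t ^ 2 ∈ G

/-- **Task T1W.**  Both signs. -/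
def S_t1W : Prop :=
  ∀ (K : Type) [Field K] [Fintype K] [CharP K 2] (lam C₀ : ℝ), 0 < lam → 0 < C₀ →
    ∃ c : ℝ, 0 < c ∧ ∃ n₀ : ℕ, ∀ n : ℕ, n₀ ≤ n → ∀ (N w L : ℕ) (Q : K[X]) (A G : Finset K[X]) (σ : ℤ),
      lam * n ≤ (L : ℝ) → WinA K n N w L Q A G →
      (∀ P : K[X], P.Monic → Irreducible P → P.natDegree ≤ L / 8 →
        ((A.filter (fun s => P ∣ s)).card : ℝ) * (Fintype.card K : ℝ) ^ P.natDegree ≤ C₀ * A.card) →
      (σ = 1 ∨ σ = -1) →
      c * A.card * (Fintype.card K : ℝ) ^ L ≤ (G.filter (fun f => mob f = σ)).card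

/-- **Task T2W.**  Almost primes with both parities. -/
def S_t2W : Prop :=
  ∀ (K : Type) [Field K] [Fintype K] [CharP K 2] (lam : ℝ), 0 < lam →
    ∃ κ c : ℝ, 0 < κ ∧ 0 < c ∧ ∃ n₀ : ℕ, ∀ n : ℕ, n₀ ≤ n →
      ∀ (N w L : ℕ) (Q : K[X]) (A G : Finset K[X]) (σ : ℤ),
      lam * n ≤ (L : ℝ) → WinA K n N w L Q A G → (σ = 1 ∨ σ = -1) →
      c * A.card * (Fintype.card K : ℝ) ^ L / n ≤
        (G.filter (fun f => mob f = σ ∧ Sft ⌊κ * n⌋₊ f)).card

/-- **Task FIBC.**  The fibres: every monic `s` of degree `N` of one class mod `M` occurs. -/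
def S_fibC : Prop :=
  ∀ (K : Type) [Field K] [Fintype K] [CharP K 2] (n u N : ℕ) (M m a : K[X]),
    n + (M.natDegree + u) = 2 * N + 1 → 1 ≤ u → M.natDegree + u + 1 ≤ n → M.Monic → m.Monic →
    Irreducible m → m.natDegree = u →
    ∃ S : K[X], S.Monic ∧ S.natDegree = N ∧ M ∣ S ^ 2 - derivative M * m * a ∧
      ∀ s : K[X], s.Monic → s.natDegree = N → M ∣ s - S →
        ∃ F ∈ Cl K n M a, derivative (M * m * F) = s ^ 2

/-- **Task PRDC.**  Products of irreducible polynomials in a family of classes mod `M`. -/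
def S_prdC : Prop :=
  ∀ (K : Type) [Field K] [Fintype K] (r : ℕ), 1 ≤ r → ∃ C : ℝ, 0 < C ∧
    ∀ (N : ℕ) (a : Fin r → ℕ) (M : K[X]) (ι : Type) (I : Finset ι) (S : ι → K[X]), (∀ i, 1 ≤ a i) →
      ∑ i, a i = N → M.Monic → M.natDegree ≤ N →
      (∀ i ∈ I, (S i).Monic ∧ (S i).natDegree = N ∧ IsCoprime (S i) M) →
      |(∑ j ∈ I, (((Fintype.piFinset fun i => Irn K (a i)).filter
          (fun P => M ∣ ∏ i, P i - S j)).card : ℝ)) -
        I.card * (∏ i, (((Irn K (a i)).filter (fun P => IsCoprime P M)).card : ℝ)) / Phi M 0| ≤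
        (C * N) ^ r * (Fintype.card K : ℝ) ^ ((N : ℝ) / 2) * Real.sqrt (PrC I S M)

/-- **Task PHI.**  Squarefree polynomials coprime to `M`. -/
def S_phi : Prop :=
  ∀ (K : Type) [Field K] [Fintype K], ∃ c : ℝ, 0 < c ∧ ∀ (M : K[X]) (D : ℕ), M.Monic → Squarefree M →
    c * (D + 1) * Phi M 0 / (Fintype.card K : ℝ) ^ M.natDegree ≤
      ∑ d ∈ Finset.range (D + 1),
        (((Mn K d).filter (fun w => Squarefree w ∧ IsCoprime w M)).card : ℝ) / (Fintype.card K : ℝ) ^ d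

/-- **Task SMC.**  A positive proportion of some class of the family is smooth. -/
def S_smC : Prop :=
  ∀ (K : Type) [Field K] [Fintype K] (η δ : ℝ), 0 < η → 0 < δ → ∃ c : ℝ, 0 < c ∧ ∃ n₀ : ℕ,
    ∀ N : ℕ, n₀ ≤ N → ∀ (H y : ℕ) (M : K[X]) (ι : Type) (I : Finset ι) (S : ι → K[X]), I.Nonempty →
      M.Monic → Squarefree M → H + M.natDegree = N → δ * N ≤ (H : ℝ) → η * N ≤ (y : ℝ) →
      (∀ i ∈ I, (S i).Monic ∧ (S i).natDegree = N ∧ IsCoprime (S i) M) →
      (Fintype.card K : ℝ) ^ ((1 + δ) * (N : ℝ)) * PrC I S M ≤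
        (I.card : ℝ) ^ 2 * (Fintype.card K : ℝ) ^ (2 * H) →
      ∃ i ∈ I, c * (Fintype.card K : ℝ) ^ H ≤ (SmC K N y M (S i)).card

end Pool.Agent.H560.AR
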