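import Mathlib
import Pool.Agent.H560.AR.Stm
import Pool.Agent.H996.SI.Base

/-!
# AR, task CTR: in every class of level `< 2 / 3` there are many windows (helper560)
-/

set_option autoImplicit false

namespace Pool.Agent.H560.AR

open Polynomial
open scoped Classical
open Pool.Agent.H560.SI (Smt)
open Pool.Agent.H694.Typ (Mn Irn PU mem_Irn mem_Mn wt irn_wt_ge)
open Pool.Agent.H996.SI (Pn mem_Pn class_card card_Pn)

section

variable {K : Type} [Field K]

lemma cop_of {M v S : K[X]} (h : M ∣ S ^ 2 - v) (hv : IsCoprime v M) : IsCoprime S M := by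
  obtain ⟨c, hc⟩ := h
  have h1 : S ^ 2 = v + M * c := by rw [← hc]; ring
  have h2 : IsCoprime (S ^ 2) M := by
    rw [h1]
    exact hv.add_mul_left_left c
  exact (IsCoprime.pow_left_iff (by norm_num)).1 h2

lemma inj_cls {M m m' a S S' : K[X]} (hD : IsCoprime (derivative M) M) (ha : IsCoprime a M)
    (h : M ∣ S ^ 2 - derivative M * m * a) (h' : M ∣ S' ^ 2 - derivative M * m' * a)
    (hSS : M ∣ S - S') : M ∣ m - m' := by
  have h1 : M ∣ S ^ 2 - S' ^ 2 := by
    have : S ^ 2 - S' ^ 2 = (S - S') * (S + S') := by ring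
    rw [this]
    exact hSS.mul_right _
  have h2 : M ∣ derivative M * a * (m - m') := by
    have : derivative M * a * (m - m') = (S ^ 2 - S' ^ 2) - (S ^ 2 - derivative M * m * a) +
        (S' ^ 2 - derivative M * m' * a) := by ring
    rw [this]
    exact dvd_add (dvd_sub h1 h) h'
  exact (IsCoprime.symm (hD.mul_left ha)).dvd_of_dvd_mul_left h2

lemma cop_S {M m a S s : K[X]} (hm : Irreducible m) (hmM : ¬ m ∣ M)
    (hD : IsCoprime (derivative M) M) (ha : IsCoprime a M)
    (h : M ∣ S ^ 2 - derivative M * m * a) (hs : M ∣ s - S) : IsCoprime s M := by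
  have h1 : IsCoprime S M := by
    refine cop_of h ((hD.mul_left ?_).mul_left ha)
    exact (hm.coprime_iff_not_dvd.2 hmM)
  obtain ⟨c, hc⟩ := hs
  have h2 : s = S + M * c := by rw [← hc]; ring
  rw [h2]
  exact h1.add_mul_left_left c

variable [Fintype K]

/-- few irreducible polynomials of given degree divide `M` -/
lemma few_dvd {M : K[X]} (hM : M.Monic) (u : ℕ) :
    ((Irn K u).filter (fun m => m ∣ M)).card * u ≤ M.natDegree := by
  have h1 : (∏ m ∈ (Irn K u).filter (fun m => m ∣ M), m) ∣ M := by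
    refine Finset.prod_dvd_of_coprime ?_ ?_
    · intro x hx y hy hxy
      rw [Finset.mem_coe, Finset.mem_filter, mem_Irn] at hx hy
      show IsCoprime x y
      rw [hx.1.2.2.coprime_iff_not_dvd]
      intro hd
      apply hxy
      exact eq_of_monic_of_associated hx.1.1 hy.1.1 (hx.1.2.2.associated_of_dvd hy.1.2.2 hd)
    · intro x hx
      rw [Finset.mem_filter] at hx
      exact hx.2
  have h2 := natDegree_le_of_dvd h1 hM.ne_zero
  rw [natDegree_prod_of_monic _ _ (fun m hm => (mem_Irn.1 (Finset.mem_filter.1 hm).1).1)] at h2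
  rw [Finset.sum_congr rfl (fun m hm => (mem_Irn.1 (Finset.mem_filter.1 hm).1).2.1),
    Finset.sum_const, smul_eq_mul] at h2
  exact h2

/-- the multiples of `P` in a class mod `M` -/
lemma mult_card {M S P : K[X]} {N H : ℕ} {A : Finset K[X]} (hM : M.Monic) (hN : H + M.natDegree = N)
    (hS : S.Monic) (hSN : S.natDegree = N) (hP : P.Monic) (hPi : Irreducible P) (hPM : ¬ P ∣ M)
    (hH : P.natDegree ≤ H) (hA : ∀ s ∈ A, s.Monic ∧ s.natDegree = N ∧ M ∣ s - S) :
    (A.filter (fun s => P ∣ s)).card * Fintype.card K ^ P.natDegree ≤ Fintype.card K ^ H := by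
  have hcop : IsCoprime P M := hPi.coprime_iff_not_dvd.2 hPM
  obtain ⟨x, y, hxy⟩ := hcop
  -- `P ∣ S + M z ↔ P ∣ z + y S`
  have h1 : (A.filter (fun s => P ∣ s)).card ≤ ((Pn K H).filter (fun z => P ∣ z - (-(y * S)))).card := by
    refine Finset.card_le_card_of_injOn (fun s => (s - S) /ₘ M) ?_ ?_
    · intro s hs
      rw [Finset.mem_coe, Finset.mem_filter] at hs
      obtain ⟨hs1, hs2⟩ := hs
      obtain ⟨h1, h2, c, hc⟩ := hA s hs1
      have h3 : (s - S) /ₘ M = c := by
        rw [hc, mul_comm]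
        exact mul_divByMonic_cancel_left _ hM |> fun h => by simpa [mul_comm] using h
      rw [Finset.mem_coe, Finset.mem_filter, mem_Pn]
      change ((s - S) /ₘ M).degree < (H : WithBot ℕ) ∧ P ∣ (s - S) /ₘ M - (-(y * S))
      rw [h3]
      refine ⟨?_, ?_⟩
      · by_cases hc0 : c = 0
        · rw [hc0, degree_zero]
          exact WithBot.bot_lt_coe _
        · have h4 : (s - S).degree < s.degree := by
            apply degree_sub_lt_left
            · rw [degree_eq_natDegree h1.ne_zero, degree_eq_natDegree hS.ne_zero, h2, hSN]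
            · exact h1.ne_zero
            · rw [h1.leadingCoeff, hS.leadingCoeff]
          rw [degree_eq_natDegree h1.ne_zero, h2, hc, degree_mul, degree_eq_natDegree hM.ne_zero,
            degree_eq_natDegree hc0, ← hN] at h4
          rw [degree_eq_natDegree hc0]
          have h5 : M.natDegree + c.natDegree < H + M.natDegree := by exact_mod_cast h4
          exact_mod_cast (by omega : c.natDegree < H)
      · have h4 : c - (-(y * S)) = c * (x * P) + y * s := by
          have h5 : s = S + M * c := by rw [← hc]; ring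
          rw [h5]
          linear_combination (-c) * hxy
        rw [h4]
        exact dvd_add ⟨c * x, by ring⟩ (hs2.mul_left _)
    · intro s hs s' hs' h
      rw [Finset.mem_coe, Finset.mem_filter] at hs hs'
      obtain ⟨h1, h2, c, hc⟩ := hA s hs.1
      obtain ⟨h1', h2', c', hc'⟩ := hA s' hs'.1
      simp only at h
      rw [hc, hc', mul_divByMonic_cancel_left _ hM, mul_divByMonic_cancel_left _ hM] at h
      rw [h] at hc
      rw [← hc'] at hc
      exact sub_left_injective hc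
  have h2 := h1.trans (class_card hP (L := H) (-(y * S)))
  calc (A.filter (fun s => P ∣ s)).card * Fintype.card K ^ P.natDegree
      ≤ Fintype.card K ^ (H - P.natDegree) * Fintype.card K ^ P.natDegree :=
        Nat.mul_le_mul_right _ h2
    _ = Fintype.card K ^ H := by
        rw [← pow_add]
        congr 1
        omega

end

/-- **Task CTR.**  Many windows in every class of level between `1 / 2` and `θ < 2 / 3`. -/
theorem ctrC (hf : S_fibC) (hs : S_smC) (K : Type) [Field K] [Fintype K] [CharP K 2] (θ : ℝ)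
    (hθ0 : 1 / 2 ≤ θ) (hθ : θ < 2 / 3) :
    ∃ lam c C₀ : ℝ, 0 < lam ∧ 0 < c ∧ 0 < C₀ ∧ ∃ n₀ : ℕ, ∀ n : ℕ, n₀ ≤ n → ∀ M a : K[X], M.Monic →
      Squarefree M → n ≤ 2 * M.natDegree → (M.natDegree : ℝ) ≤ θ * n → IsCoprime a M →
      ∃ (N w L : ℕ) (Q : K[X]) (A : Finset K[X]), lam * n ≤ (L : ℝ) ∧
        WinA K n N w L Q A (Cl K n M a) ∧
        c * (Fintype.card K : ℝ) ^ (n - M.natDegree) ≤ A.card * (Fintype.card K : ℝ) ^ L ∧
        ∀ P : K[X], P.Monic → Irreducible P → P.natDegree ≤ L / 8 →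
          ((A.filter (fun s => P ∣ s)).card : ℝ) * (Fintype.card K : ℝ) ^ P.natDegree ≤ C₀ * A.card := by
  obtain ⟨q, hqdef⟩ : ∃ q : ℝ, q = Fintype.card K := ⟨_, rfl⟩
  have hq1 : (1 : ℝ) < q := by rw [hqdef]; exact_mod_cast Fintype.one_lt_card
  have hq0 : (0 : ℝ) < q := by linarith
  have hq2 : (2 : ℝ) ≤ q := by
    rw [hqdef]
    exact_mod_cast Fintype.one_lt_card
  obtain ⟨ε, hε⟩ : ∃ ε : ℝ, ε = 2 / 3 - θ := ⟨_, rfl⟩
  have hε0 : 0 < ε := by rw [hε]; linarith
  have hε6 : ε ≤ 1 / 6 := by rw [hε]; linarith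
  obtain ⟨lam, hlam⟩ : ∃ lam : ℝ, lam = ε / 8 := ⟨_, rfl⟩
  have hlam0 : 0 < lam := by rw [hlam]; positivity
  obtain ⟨c, hc, n₁, hc1⟩ := hs K (lam / 10) ε (by positivity) hε0
  rw [← hqdef] at hc1 ⊢
  obtain ⟨n₂, hn₂⟩ : ∃ n₂ : ℕ, ∀ n : ℕ, n₂ ≤ n → (4 : ℝ) * n ≤ q ^ (ε / 2 * n) := by
    have h1 : Filter.Tendsto (fun n : ℕ => (n : ℝ) * (q ^ (-(ε / 2))) ^ n) Filter.atTop (nhds 0) :=
      tendsto_self_mul_const_pow_of_lt_one (by positivity)
        (Real.rpow_lt_one_of_one_lt_of_neg hq1 (by linarith))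
    have h2 := h1.eventually (gt_mem_nhds (show (0 : ℝ) < 1 / 4 by norm_num))
    rw [Filter.eventually_atTop] at h2
    obtain ⟨n₂, h2⟩ := h2
    refine ⟨n₂, fun n hn => ?_⟩
    have h3 := (h2 n hn).le
    have h4 : (q ^ (-(ε / 2))) ^ n * q ^ (ε / 2 * n) = 1 := by
      rw [← Real.rpow_natCast, ← Real.rpow_mul hq0.le, ← Real.rpow_add hq0]
      have : -(ε / 2) * (n : ℝ) + ε / 2 * n = 0 := by ring
      rw [this, Real.rpow_zero]
    have h5 : 0 < q ^ (ε / 2 * (n : ℝ)) := by positivity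
    calc (4 : ℝ) * n = 4 * (n * ((q ^ (-(ε / 2))) ^ n * q ^ (ε / 2 * (n : ℝ)))) := by
          rw [h4, mul_one]
      _ = 4 * (n * (q ^ (-(ε / 2))) ^ n) * q ^ (ε / 2 * (n : ℝ)) := by ring
      _ ≤ 4 * (1 / 4) * q ^ (ε / 2 * (n : ℝ)) := by
          apply mul_le_mul_of_nonneg_right _ h5.le
          exact mul_le_mul_of_nonneg_left h3 (by norm_num)
      _ = q ^ (ε / 2 * (n : ℝ)) := by ring
  obtain ⟨n₃, hn₃⟩ := exists_nat_gt (1000 / ε)
  refine ⟨lam, c / q, 1 / c, hlam0, by positivity, by positivity, 2 * n₁ + n₂ + n₃ + 1, ?_⟩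
  intro n hn M a hM hMs hn2 hμθ ha
  have hn0 : (0 : ℝ) < n := by exact_mod_cast (by omega : 0 < n)
  have hεn : 1000 ≤ ε * n := by
    have h1 : (n₃ : ℝ) ≤ n := by exact_mod_cast (by omega : n₃ ≤ n)
    have h2 : 1000 / ε ≤ n := hn₃.le.trans h1
    rw [div_le_iff₀ hε0] at h2
    linarith
  obtain ⟨μ, hμ⟩ : ∃ μ : ℕ, μ = M.natDegree := ⟨_, rfl⟩
  rw [← hμ] at hn2 hμθ ⊢
  obtain ⟨L, hL⟩ : ∃ L : ℕ, L = ⌈lam * (n : ℝ)⌉₊ := ⟨_, rfl⟩
  have hL1 : lam * n ≤ L := by rw [hL]; exact Nat.le_ceil _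
  have hL2 : (L : ℝ) ≤ lam * n + 1 := by
    rw [hL]
    exact (Nat.ceil_lt_add_one (by positivity)).le
  have hlamn : lam * n = ε * n / 8 := by rw [hlam]; ring
  have hθn : θ * n = 2 / 3 * n - ε * n := by rw [hε]; ring
  have hεn6 : ε * n ≤ 1 / 6 * n := mul_le_mul_of_nonneg_right hε6 hn0.le
  have hμn : μ ≤ n := by
    have h1 : (μ : ℝ) ≤ n := by linarith
    exact_mod_cast h1
  obtain ⟨k, hk⟩ : ∃ k : ℕ, k + μ = n := ⟨n - μ, by omega⟩
  have hkr : (k : ℝ) + μ = n := by exact_mod_cast hk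
  have hk3 : (n : ℝ) / 3 + ε * n ≤ k := by linarith
  have h2L : 2 * L + 1 ≤ k := by
    have h1 : 2 * (L : ℝ) + 1 ≤ k := by linarith
    exact_mod_cast h1
  obtain ⟨u, hu⟩ : ∃ u : ℕ, u + 2 * L + 1 = k := ⟨k - 1 - 2 * L, by omega⟩
  have hur : (u : ℝ) + 2 * L + 1 = k := by exact_mod_cast hu
  have hun : (n : ℝ) / 3 ≤ u := by linarith
  have hun3 : n ≤ 3 * u := by
    have h1 : (n : ℝ) ≤ 3 * u := by linarith
    exact_mod_cast h1
  have hn1000 : 6000 ≤ n := by
    have : (6000 : ℝ) ≤ n := by linarith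
    exact_mod_cast this
  obtain ⟨N, hN⟩ : ∃ N : ℕ, N + L + 1 = n := ⟨n - 1 - L, by omega⟩
  have hNr : (N : ℝ) + L + 1 = n := by exact_mod_cast hN
  obtain ⟨H, hH⟩ : ∃ H : ℕ, H + μ = N := ⟨N - μ, by omega⟩
  have hHr : (H : ℝ) + μ = N := by exact_mod_cast hH
  have hHk : H + L + 1 = k := by omega
  have hLu : L < u := by
    have h1 : (L : ℝ) < u := by linarith
    exact_mod_cast h1
  have hu1 : 1 ≤ u := by omega
  -- the derivative of `M`
  have hD : IsCoprime (derivative M) M := by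
    have h1 : M.Separable := PerfectField.separable_iff_squarefree.2 hMs
    exact h1.symm
  -- the centres
  have hS : ∀ m : K[X], ∃ S : K[X], m ∈ Irn K u → (S.Monic ∧ S.natDegree = N ∧
      M ∣ S ^ 2 - derivative M * m * a ∧
      ∀ s : K[X], s.Monic → s.natDegree = N → M ∣ s - S →
        ∃ F ∈ Cl K n M a, derivative (M * m * F) = s ^ 2) := by
    intro m
    by_cases hm : m ∈ Irn K u
    · obtain ⟨h1, h2, h3⟩ := mem_Irn.1 hm
      obtain ⟨S, h4, h5, h6, h7⟩ := hf K n u N M m a (by omega) hu1 (by omega) hM h1 h3 h2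
      exact ⟨S, fun _ => ⟨h4, h5, h6, h7⟩⟩
    · exact ⟨0, fun h => absurd h hm⟩
  choose S hS using hS
  obtain ⟨I, hI⟩ : ∃ I : Finset K[X], I = (Irn K u).filter (fun m => ¬ m ∣ M) := ⟨_, rfl⟩
  have hIi : ∀ m ∈ I, m ∈ Irn K u ∧ ¬ m ∣ M := by
    intro m hm
    rw [hI, Finset.mem_filter] at hm
    exact hm
  have hIc : q ^ u ≤ 4 * u * (I.card : ℝ) := by
    have h1 := irn_wt_ge (k := K) (j := u) (by omega)
    have h2 : ∑ P ∈ Irn K u, wt K P.natDegree = ((Irn K u).card : ℝ) * wt K u := by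
      rw [Finset.sum_congr rfl (fun P hP => by rw [(mem_Irn.1 hP).2.1]), Finset.sum_const,
        nsmul_eq_mul]
    rw [h2] at h1
    have hu0 : (0 : ℝ) < u := by exact_mod_cast hu1
    have h3 : wt K u = 1 / q ^ u := by
      rw [hqdef, one_div]
      rfl
    have hqu : 0 < q ^ u := by positivity
    rw [h3, mul_one_div, div_le_div_iff₀ (by positivity) hqu, one_mul] at h1
    have h4 := few_dvd hM u
    rw [← hμ] at h4
    have h5 : (Irn K u).card = I.card + ((Irn K u).filter (fun m => m ∣ M)).card := by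
      rw [hI, add_comm]
      exact (Finset.card_filter_add_card_filter_not (s := Irn K u) (fun m => m ∣ M)).symm
    have h6 : 2 * (u : ℝ) * ((Irn K u).card : ℝ) ≤ 2 * u * I.card + 2 * μ := by
      rw [h5]
      push_cast
      have h7 : ((((Irn K u).filter (fun m => m ∣ M)).card : ℝ)) * u ≤ μ := by exact_mod_cast h4
      nlinarith
    have h7 : 4 * (μ : ℝ) ≤ q ^ u := by
      have h8 := hn₂ n (by omega)
      have h9 : q ^ (ε / 2 * (n : ℝ)) ≤ q ^ u := by
        rw [← Real.rpow_natCast]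
        apply Real.rpow_le_rpow_of_exponent_le hq1.le
        linarith
      have h10 : (μ : ℝ) ≤ n := by exact_mod_cast hμn
      linarith
    linarith
  have hu0 : (0 : ℝ) < u := by exact_mod_cast hu1
  have hI0 : (0 : ℝ) < I.card := by
    have h1 : 0 < q ^ u := by positivity
    by_contra h2
    have h3 : (I.card : ℝ) = 0 := le_antisymm (not_lt.1 h2) (Nat.cast_nonneg _)
    rw [h3, mul_zero] at hIc
    linarith
  have hIne : I.Nonempty := by
    rw [← Finset.card_pos]
    exact_mod_cast hI0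
  have hprs : PrC I S M ≤ I.card := by
    unfold PrC
    rw [Finset.card_filter, Finset.sum_product]
    refine le_trans (Finset.sum_le_sum (g := fun _ => 1) fun m hm => ?_) (by simp)
    rw [← Finset.card_filter, Finset.card_le_one]
    intro x hx y hy
    rw [Finset.mem_filter] at hx hy
    obtain ⟨hx1, hx2⟩ := hx
    obtain ⟨hy1, hy2⟩ := hy
    have hxy : M ∣ S x - S y := by
      have : S x - S y = (S m - S y) - (S m - S x) := by ring
      rw [this]
      exact dvd_sub hy2 hx2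
    have h1 := inj_cls hD ha (hS x (hIi x hx1).1).2.2.1 (hS y (hIi y hy1).1).2.2.1 hxy
    obtain ⟨hxm, hxd, -⟩ := mem_Irn.1 (hIi x hx1).1
    obtain ⟨hym, hyd, -⟩ := mem_Irn.1 (hIi y hy1).1
    have h2 : (x - y).degree < M.degree := by
      have h3 : (x - y).degree < x.degree := by
        apply degree_sub_lt_left
        · rw [degree_eq_natDegree hxm.ne_zero, degree_eq_natDegree hym.ne_zero, hxd, hyd]
        · exact hxm.ne_zero
        · rw [hxm.leadingCoeff, hym.leadingCoeff]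
      refine h3.trans_le ?_
      rw [degree_eq_natDegree hxm.ne_zero, hxd, degree_eq_natDegree hM.ne_zero, ← hμ]
      exact_mod_cast (by omega : u ≤ μ)
    exact sub_eq_zero.1 (eq_zero_of_dvd_of_degree_lt h1 h2)
  have hScop : ∀ m ∈ I, IsCoprime (S m) M := by
    intro m hm
    exact cop_S (mem_Irn.1 (hIi m hm).1).2.2 (hIi m hm).2 hD ha (hS m (hIi m hm).1).2.2.1
      (by rw [sub_self]; exact dvd_zero _)
  obtain ⟨m, hm, hcm⟩ := hc1 N (by omega) H (L / 8) M K[X] I S hIne hM hMs (by rw [← hμ]; exact hH)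
    (by
      have h1 : ε * (N : ℝ) ≤ ε * n := by
        apply mul_le_mul_of_nonneg_left _ hε0.le
        exact_mod_cast (by omega : N ≤ n)
      have h2 : (H : ℝ) + L + 1 = k := by exact_mod_cast hHk
      linarith)
    (by
      have h1 : (N : ℝ) ≤ n := by exact_mod_cast (by omega : N ≤ n)
      have h2 : lam / 10 * (N : ℝ) ≤ lam / 10 * n := mul_le_mul_of_nonneg_left h1 (by positivity)
      have h3 : (L : ℝ) ≤ 8 * ((L / 8 : ℕ) : ℝ) + 7 := by exact_mod_cast (by omega : L ≤ 8 * (L / 8) + 7)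
      linarith)
    (fun m hm => ⟨(hS m (hIi m hm).1).1, (hS m (hIi m hm).1).2.1, hScop m hm⟩)
    (by
      have h1 : (PrC I S M : ℝ) ≤ I.card := by exact_mod_cast hprs
      have h2 : q ^ u ≤ q ^ (ε / 2 * (n : ℝ)) * (I.card : ℝ) := by
        refine hIc.trans (mul_le_mul_of_nonneg_right ?_ hI0.le)
        refine le_trans ?_ (hn₂ n (by omega))
        have : (u : ℝ) ≤ n := by exact_mod_cast (by omega : u ≤ n)
        linarith
      have h5 : q ^ ((1 + ε) * (N : ℝ)) * q ^ (ε / 2 * (n : ℝ)) ≤ q ^ u * q ^ (2 * H) := by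
        rw [← Real.rpow_natCast q u, ← Real.rpow_natCast q (2 * H), ← Real.rpow_add hq0,
          ← Real.rpow_add hq0]
        apply Real.rpow_le_rpow_of_exponent_le hq1.le
        push_cast
        have h7 : ε * (N : ℝ) ≤ ε * n := by
          apply mul_le_mul_of_nonneg_left _ hε0.le
          exact_mod_cast (by omega : N ≤ n)
        have h8 : (H : ℝ) + L + 1 = k := by exact_mod_cast hHk
        linarith
      have h8 : 0 < q ^ (ε / 2 * (n : ℝ)) := by positivity
      have h9 : 0 < q ^ ((1 + ε) * (N : ℝ)) := by positivity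
      refine le_of_mul_le_mul_right ?_ h8
      calc q ^ ((1 + ε) * (N : ℝ)) * (PrC I S M : ℝ) * q ^ (ε / 2 * (n : ℝ))
          ≤ q ^ ((1 + ε) * (N : ℝ)) * (I.card : ℝ) * q ^ (ε / 2 * (n : ℝ)) := by
              apply mul_le_mul_of_nonneg_right _ h8.le
              exact mul_le_mul_of_nonneg_left h1 h9.le
        _ = I.card * (q ^ ((1 + ε) * (N : ℝ)) * q ^ (ε / 2 * (n : ℝ))) := by ring
        _ ≤ I.card * (q ^ u * q ^ (2 * H)) := mul_le_mul_of_nonneg_left h5 hI0.le
        _ ≤ I.card * ((q ^ (ε / 2 * (n : ℝ)) * (I.card : ℝ)) * q ^ (2 * H)) := by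
              apply mul_le_mul_of_nonneg_left _ hI0.le
              exact mul_le_mul_of_nonneg_right h2 (by positivity)
        _ = (I.card : ℝ) ^ 2 * q ^ (2 * H) * q ^ (ε / 2 * (n : ℝ)) := by ring)
  obtain ⟨hmI, hmM⟩ := hIi m hm
  obtain ⟨hmm, hmd, hmi⟩ := mem_Irn.1 hmI
  obtain ⟨hS1, hS2, hS3, hS4⟩ := hS m hmI
  have hsA : ∀ s ∈ SmC K N (L / 8) M (S m), s.Monic ∧ s.natDegree = N ∧ M ∣ s - S m ∧ Squarefree s ∧
      Smt (L / 8) s := by
    intro s hs
    unfold SmC at hs
    rw [Finset.mem_filter, mem_Mn] at hs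
    exact ⟨hs.1.1, hs.1.2, hs.2.1, hs.2.2.1, hs.2.2.2⟩
  have hcopM : ∀ s ∈ SmC K N (L / 8) M (S m), IsCoprime s M := fun s hs =>
    cop_S hmi hmM hD ha hS3 (hsA s hs).2.2.1
  refine ⟨N, μ + u, L, M * m, SmC K N (L / 8) M (S m), hL1, ?_, ?_, ?_⟩
  · refine ⟨by omega, by omega, hM.mul hmm, ?_, ?_, ?_⟩
    · rw [squarefree_mul_iff]
      exact ⟨((hmi.coprime_iff_not_dvd.2 hmM).symm).isRelPrime, hMs, hmi.squarefree⟩
    · rw [hM.natDegree_mul hmm, hmd, hμ]
    · intro s hs
      obtain ⟨h1, h2, h3, h4, h5⟩ := hsA s hs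
      refine ⟨h1, h2, h4, h5, ?_, ?_⟩
      · refine (hcopM s hs).symm.mul_left ?_
        rw [hmi.coprime_iff_not_dvd]
        intro h6
        have h7 := h5 m hmm hmi h6
        omega
      · obtain ⟨F, hF, hFd⟩ := hS4 s h1 h2 h3
        unfold Cl at hF
        rw [Finset.mem_filter, mem_Mn] at hF
        refine ⟨F, hF.1.1, hF.1.2, hFd, fun t ht => ?_⟩
        unfold Cl
        rw [Finset.mem_filter, mem_Mn]
        have h6 : (M * m * t ^ 2).degree < F.degree := by
          rw [degree_eq_natDegree hF.1.1.ne_zero, hF.1.2]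
          by_cases ht0 : t = 0
          · rw [ht0, zero_pow two_ne_zero, mul_zero, degree_zero]
            exact WithBot.bot_lt_coe _
          · have h7 : M * m * t ^ 2 ≠ 0 :=
              mul_ne_zero (mul_ne_zero hM.ne_zero hmm.ne_zero) (pow_ne_zero 2 ht0)
            rw [degree_eq_natDegree h7, natDegree_mul (mul_ne_zero hM.ne_zero hmm.ne_zero)
              (pow_ne_zero 2 ht0), natDegree_mul hM.ne_zero hmm.ne_zero, natDegree_pow, hmd, ← hμ]
            rw [degree_eq_natDegree ht0] at ht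
            have h8 : t.natDegree < L := by exact_mod_cast ht
            exact_mod_cast (by omega : μ + u + 2 * t.natDegree < n)
        refine ⟨⟨hF.1.1.add_of_left h6, ?_⟩, ?_⟩
        · rw [natDegree_add_eq_left_of_degree_lt h6, hF.1.2]
        · have h7 : F + M * m * t ^ 2 - a = (F - a) + M * (m * t ^ 2) := by ring
          rw [h7]
          exact dvd_add hF.2 (dvd_mul_right _ _)
  · have h1 : n - μ = H + L + 1 := by omega
    rw [h1, pow_succ, pow_add]
    have h2 : 0 < q ^ L := by positivity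
    calc c / q * (q ^ H * q ^ L * q) = c * q ^ H * q ^ L := by field_simp
      _ ≤ (SmC K N (L / 8) M (S m)).card * q ^ L := mul_le_mul_of_nonneg_right hcm h2.le
  · intro P hP hPi hPL
    by_cases hPM : P ∣ M
    · have h1 : (SmC K N (L / 8) M (S m)).filter (fun s => P ∣ s) = ∅ := by
        rw [Finset.filter_eq_empty_iff]
        intro s hs hPs
        have h2 := (hcopM s hs).isUnit_of_dvd' hPs hPM
        exact hPi.not_isUnit h2
      rw [h1, Finset.card_empty, Nat.cast_zero, zero_mul]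
      positivity
    · have h1 := mult_card (A := SmC K N (L / 8) M (S m)) hM (by rw [← hμ]; exact hH) hS1 hS2 hP hPi hPM
        (by omega) (fun s hs => ⟨(hsA s hs).1, (hsA s hs).2.1, (hsA s hs).2.2.1⟩)
      have h2 : (((SmC K N (L / 8) M (S m)).filter (fun s => P ∣ s)).card : ℝ) *
          q ^ P.natDegree ≤ q ^ H := by
        rw [hqdef]
        exact_mod_cast h1
      refine h2.trans ?_
      rw [div_mul_eq_mul_div, one_mul, le_div_iff₀ hc, mul_comm]
      exact hcm

end Pool.Agent.H560.AR
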