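import Mathlib
import Pool.Agent.H560.AR.Ctr

/-!
# AR: the extension to all moduli of degree at most `θ n` and the two theorems (helper560)
-/

set_option autoImplicit false

namespace Pool.Agent.H560.AR

open Polynomial
open scoped Classical
open Pool.Agent.H985.Chow (mob)
open Pool.Agent.H985.Par (Sft)
open Pool.Agent.H560.SI (Smt)
open Pool.Agent.H694.Typ (Mn Irn PU mem_Irn mem_Mn wt irn_wt_ge)
open Pool.Agent.H996.SI (Pn mem_Pn class_card card_Pn)

section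

variable {K : Type} [Field K] [Fintype K]

/-- a class mod `M` contains the classes mod `M R` -/
lemma cutC {M R a : K[X]} {n ρ : ℕ} (p : K[X] → Prop) [DecidablePred p] (B : ℝ) (hB : 0 ≤ B) (ha : IsCoprime a M)
    (hM : M ≠ 0) (hR : R.Monic) (hRi : Irreducible R) (hRρ : R.natDegree = ρ) (hRM : ¬ R ∣ M)
    (h : ∀ b : K[X], IsCoprime b (M * R) → B ≤ ((Cl K n (M * R) b).filter p).card) :
    ((Fintype.card K : ℝ) ^ ρ - 1) * B ≤ ((Cl K n M a).filter p).card := by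
  obtain ⟨J, hJ⟩ : ∃ J : Finset K[X], J = (Pn K ρ).filter (fun c => ¬ R ∣ a + M * c) := ⟨_, rfl⟩
  have hcop : IsCoprime R M := hRi.coprime_iff_not_dvd.2 hRM
  have hJc : (Fintype.card K : ℝ) ^ ρ - 1 ≤ J.card := by
    obtain ⟨x, y, hxy⟩ := hcop
    have h1 : ((Pn K ρ).filter (fun c => R ∣ a + M * c)).card ≤ 1 := by
      refine le_trans (Finset.card_le_card (t := (Pn K ρ).filter (fun c => R ∣ c - (-(y * a)))) ?_) ?_
      · intro c hc
        rw [Finset.mem_filter] at hc ⊢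
        refine ⟨hc.1, ?_⟩
        have h2 : c - (-(y * a)) = y * (a + M * c) + R * (x * c) := by
          linear_combination (-c) * hxy
        rw [h2]
        exact dvd_add (hc.2.mul_left _) (dvd_mul_right _ _)
      · refine (class_card hR (L := ρ) (-(y * a))).trans ?_
        rw [hRρ, Nat.sub_self, pow_zero]
    have h2 := Finset.card_filter_add_card_filter_not (s := Pn K ρ) (fun c => R ∣ a + M * c)
    rw [card_Pn, ← hJ] at h2
    have h3 : Fintype.card K ^ ρ ≤ 1 + J.card := by omega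
    have h4 : ((Fintype.card K : ℝ)) ^ ρ ≤ 1 + J.card := by exact_mod_cast h3
    linarith
  have hdis : (J.biUnion (fun c => (Cl K n (M * R) (a + M * c)).filter p)).card =
      ∑ c ∈ J, ((Cl K n (M * R) (a + M * c)).filter p).card := by
    apply Finset.card_biUnion
    intro c hc c' hc' hne
    show Disjoint ((Cl K n (M * R) (a + M * c)).filter p) ((Cl K n (M * R) (a + M * c')).filter p)
    rw [Finset.disjoint_left]
    intro f hf hf'
    unfold Cl at hf hf'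
    rw [Finset.mem_filter, Finset.mem_filter] at hf hf'
    apply hne
    have h1 : M * R ∣ M * (c - c') := by
      have : M * (c - c') = (f - (a + M * c')) - (f - (a + M * c)) := by ring
      rw [this]
      exact dvd_sub hf'.1.2 hf.1.2
    have h2 : R ∣ c - c' := (mul_dvd_mul_iff_left hM).1 h1
    rw [Finset.mem_coe, hJ, Finset.mem_filter, mem_Pn] at hc hc'
    have h3 : (c - c').degree < R.degree := by
      rw [degree_eq_natDegree hR.ne_zero, hRρ]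
      exact (degree_sub_le _ _).trans_lt (max_lt hc.1 hc'.1)
    exact sub_eq_zero.1 (eq_zero_of_dvd_of_degree_lt h2 h3)
  have hsub : J.biUnion (fun c => (Cl K n (M * R) (a + M * c)).filter p) ⊆ (Cl K n M a).filter p := by
    intro f hf
    rw [Finset.mem_biUnion] at hf
    obtain ⟨c, -, hf⟩ := hf
    unfold Cl at hf ⊢
    rw [Finset.mem_filter, Finset.mem_filter] at hf ⊢
    refine ⟨⟨hf.1.1, ?_⟩, hf.2⟩
    have h1 : f - a = (f - (a + M * c)) + M * c := by ring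
    rw [h1]
    exact dvd_add ((dvd_mul_right M R).trans hf.1.2) (dvd_mul_right _ _)
  have h1 : (∑ c ∈ J, ((Cl K n (M * R) (a + M * c)).filter p).card : ℝ) ≤
      ((Cl K n M a).filter p).card := by
    have h2 := Finset.card_le_card hsub
    rw [hdis] at h2
    exact_mod_cast h2
  refine le_trans ?_ h1
  calc ((Fintype.card K : ℝ) ^ ρ - 1) * B ≤ J.card * B := mul_le_mul_of_nonneg_right hJc hB
    _ = ∑ _c ∈ J, B := by rw [Finset.sum_const, nsmul_eq_mul]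
    _ ≤ ∑ c ∈ J, (((Cl K n (M * R) (a + M * c)).filter p).card : ℝ) := by
        refine Finset.sum_le_sum fun c hc => ?_
        apply h
        rw [hJ, Finset.mem_filter] at hc
        refine IsCoprime.mul_right (ha.add_mul_left_left c) ?_
        exact (hRi.coprime_iff_not_dvd.2 hc.2).symm

/-- an irreducible polynomial of degree `ρ` which does not divide `M` -/
lemma exists_R {M : K[X]} {ρ : ℕ} (hM : M.Monic) (hρ : 4 ≤ ρ)
    (h : 2 * (M.natDegree : ℝ) < (Fintype.card K : ℝ) ^ ρ) :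
    ∃ R : K[X], R.Monic ∧ Irreducible R ∧ R.natDegree = ρ ∧ ¬ R ∣ M := by
  by_contra hcon
  push Not at hcon
  have h1 : (Irn K ρ).filter (fun m => m ∣ M) = Irn K ρ := by
    rw [Finset.filter_eq_self]
    intro m hm
    obtain ⟨h2, h3, h4⟩ := mem_Irn.1 hm
    exact hcon m h2 h4 h3
  have h2 := few_dvd hM ρ
  rw [h1] at h2
  have h3 := irn_wt_ge (k := K) (j := ρ) hρ
  rw [Finset.sum_congr rfl (fun P hP => by rw [(mem_Irn.1 hP).2.1]), Finset.sum_const,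
        nsmul_eq_mul] at h3
  have hq : (0 : ℝ) < Fintype.card K := by exact_mod_cast Fintype.card_pos
  have h4 : wt K ρ = 1 / (Fintype.card K : ℝ) ^ ρ := by
    rw [one_div]
    rfl
  have hρ0 : (0 : ℝ) < ρ := by exact_mod_cast (by omega : 0 < ρ)
  rw [h4, mul_one_div, div_le_div_iff₀ (by positivity) (by positivity), one_mul] at h3
  have h5 : ((Irn K ρ).card : ℝ) * ρ ≤ M.natDegree := by exact_mod_cast h2
  linarith

/-- the extension to all moduli -/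
lemma extC (θ : ℝ) (hθ1 : 7 / 12 ≤ θ) (hθ2 : θ < 2 / 3) :
    ∃ n₀ : ℕ, ∀ n : ℕ, n₀ ≤ n → ∀ (p : K[X] → Prop) [DecidablePred p] (C : ℝ), 0 ≤ C →
      (∀ M a : K[X], M.Monic → Squarefree M → n ≤ 2 * M.natDegree → (M.natDegree : ℝ) ≤ θ * n →
        IsCoprime a M → C * (Fintype.card K : ℝ) ^ (n - M.natDegree) ≤ ((Cl K n M a).filter p).card) →
      ∀ M a : K[X], M.Monic → Squarefree M → (M.natDegree : ℝ) ≤ θ * n → IsCoprime a M →
        C / 2 * (Fintype.card K : ℝ) ^ (n - M.natDegree) ≤ ((Cl K n M a).filter p).card := by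
  obtain ⟨q, hqdef⟩ : ∃ q : ℝ, q = Fintype.card K := ⟨_, rfl⟩
  rw [← hqdef]
  have hq2 : (2 : ℝ) ≤ q := by
    rw [hqdef]
    exact_mod_cast Fintype.one_lt_card
  have hq0 : (0 : ℝ) < q := by linarith
  obtain ⟨n₂, hn₂⟩ : ∃ n₂ : ℕ, ∀ n : ℕ, n₂ ≤ n → (4 : ℝ) * n ≤ q ^ ((1 / 24 : ℝ) * n) := by
    have hq1 : (1 : ℝ) < q := by linarith
    have h1 : Filter.Tendsto (fun n : ℕ => (n : ℝ) * (q ^ (-(1 / 24 : ℝ))) ^ n) Filter.atTop (nhds 0) :=
      tendsto_self_mul_const_pow_of_lt_one (by positivity)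
        (Real.rpow_lt_one_of_one_lt_of_neg hq1 (by norm_num))
    have h2 := h1.eventually (gt_mem_nhds (show (0 : ℝ) < 1 / 4 by norm_num))
    rw [Filter.eventually_atTop] at h2
    obtain ⟨n₂, h2⟩ := h2
    refine ⟨n₂, fun n hn => ?_⟩
    have h3 := (h2 n hn).le
    have h4 : (q ^ (-(1 / 24 : ℝ))) ^ n * q ^ ((1 / 24 : ℝ) * n) = 1 := by
      rw [← Real.rpow_natCast, ← Real.rpow_mul hq0.le, ← Real.rpow_add hq0]
      have : -(1 / 24 : ℝ) * (n : ℝ) + 1 / 24 * n = 0 := by ring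
      rw [this, Real.rpow_zero]
    have h5 : 0 < q ^ ((1 / 24 : ℝ) * (n : ℝ)) := by positivity
    calc (4 : ℝ) * n = 4 * (n * ((q ^ (-(1 / 24 : ℝ))) ^ n * q ^ ((1 / 24 : ℝ) * (n : ℝ)))) := by
          rw [h4, mul_one]
      _ = 4 * (n * (q ^ (-(1 / 24 : ℝ))) ^ n) * q ^ ((1 / 24 : ℝ) * (n : ℝ)) := by ring
      _ ≤ 4 * (1 / 4) * q ^ ((1 / 24 : ℝ) * (n : ℝ)) := by
          apply mul_le_mul_of_nonneg_right _ h5.le
          exact mul_le_mul_of_nonneg_left h3 (by norm_num)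
      _ = q ^ ((1 / 24 : ℝ) * (n : ℝ)) := by ring
  refine ⟨n₂ + 1000, ?_⟩
  intro n hn p _ C hC h M a hM hMs hMθ ha
  by_cases hn2 : n ≤ 2 * M.natDegree
  · refine le_trans ?_ (h M a hM hMs hn2 hMθ ha)
    apply mul_le_mul_of_nonneg_right (by linarith) (by positivity)
  have hnr : (1000 : ℝ) ≤ n := by exact_mod_cast (by omega : 1000 ≤ n)
  obtain ⟨μ, hμ⟩ : ∃ μ : ℕ, μ = M.natDegree := ⟨_, rfl⟩
  rw [← hμ] at hn2 hMθ ⊢
  have hθn : (7 / 12 : ℝ) * n ≤ θ * n := mul_le_mul_of_nonneg_right hθ1 (by positivity)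
  obtain ⟨μ', hμ'⟩ : ∃ μ' : ℕ, μ' = ⌊θ * (n : ℝ)⌋₊ := ⟨_, rfl⟩
  have h1 : (μ' : ℝ) ≤ θ * n := by
    rw [hμ']
    exact Nat.floor_le (by linarith)
  have h2 : θ * n < μ' + 1 := by
    rw [hμ']
    exact Nat.lt_floor_add_one _
  have h3 : (μ : ℝ) < n / 2 := by
    have : 2 * μ + 1 ≤ n := by omega
    have h4 : 2 * (μ : ℝ) + 1 ≤ n := by exact_mod_cast this
    linarith
  have h4 : (μ : ℝ) + n / 24 + 4 ≤ μ' := by linarith
  have h5 : μ + 4 ≤ μ' := by
    have h6 : (μ : ℝ) + 4 ≤ μ' := by linarith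
    exact_mod_cast h6
  obtain ⟨ρ, hρ⟩ : ∃ ρ : ℕ, μ + ρ = μ' := ⟨μ' - μ, by omega⟩
  have hρr : (μ : ℝ) + ρ = μ' := by exact_mod_cast hρ
  have h6 : 2 * (M.natDegree : ℝ) < (Fintype.card K : ℝ) ^ ρ := by
    rw [← hμ, ← hqdef]
    have h7 := hn₂ n (by omega)
    have h8 : q ^ ((1 / 24 : ℝ) * (n : ℝ)) ≤ q ^ ρ := by
      rw [← Real.rpow_natCast]
      apply Real.rpow_le_rpow_of_exponent_le (by linarith)
      linarith
    linarith
  obtain ⟨R, hR, hRi, hRρ, hRM⟩ := exists_R hM (by omega) h6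
  have hMR : (M * R).natDegree = μ' := by rw [hM.natDegree_mul hR, hRρ, ← hμ, hρ]
  have hμn : μ' ≤ n := by
    have h7 : θ * n ≤ 1 * n := mul_le_mul_of_nonneg_right (by linarith) (by positivity)
    have h8 : (μ' : ℝ) ≤ n := by linarith
    exact_mod_cast h8
  have h7 := cutC (n := n) p (C * q ^ (n - μ')) (by positivity) ha hM.ne_zero hR hRi hRρ hRM (by
    intro b hb
    have h8 := h (M * R) b (hM.mul hR) ?_ ?_ ?_ hb
    · rw [hMR] at h8
      exact h8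
    · rw [squarefree_mul_iff]
      exact ⟨((hRi.coprime_iff_not_dvd.2 hRM).symm).isRelPrime, hMs, hRi.squarefree⟩
    · rw [hMR]
      have h9 : (n : ℝ) ≤ 2 * μ' := by linarith
      exact_mod_cast h9
    · rw [hMR]
      exact h1)
  refine le_trans ?_ h7
  rw [← hqdef]
  have h8 : q ^ (n - μ) = q ^ ρ * q ^ (n - μ') := by
    rw [← pow_add]
    congr 1
    omega
  have h9 : (2 : ℝ) ≤ q ^ ρ := by
    calc (2 : ℝ) ≤ q := hq2
      _ = q ^ 1 := (pow_one q).symm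
      _ ≤ q ^ ρ := pow_le_pow_right₀ (by linarith) (by omega)
  rw [h8]
  have h10 : 0 ≤ C * q ^ (n - μ') := by positivity
  calc C / 2 * (q ^ ρ * q ^ (n - μ')) = (q ^ ρ / 2) * (C * q ^ (n - μ')) := by ring
    _ ≤ (q ^ ρ - 1) * (C * q ^ (n - μ')) := mul_le_mul_of_nonneg_right (by linarith) h10

end

/-- **Both signs in progressions of level `2 / 3`.** -/
theorem signsC (h1 : S_t1W) (hf : S_fibC) (hs : S_smC) (K : Type) [Field K] [Fintype K] [CharP K 2]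
    (θ : ℝ) (hθ : θ < 2 / 3) :
    ∃ c : ℝ, 0 < c ∧ ∃ n₀ : ℕ, ∀ n : ℕ, n₀ ≤ n → ∀ (M a : K[X]) (σ : ℤ), M.Monic → Squarefree M →
      (M.natDegree : ℝ) ≤ θ * n → IsCoprime a M → (σ = 1 ∨ σ = -1) →
      c * (Fintype.card K : ℝ) ^ (n - M.natDegree) ≤ ((Cl K n M a).filter (fun f => mob f = σ)).card := by
  obtain ⟨θ', hθ'⟩ : ∃ θ' : ℝ, θ' = max θ (7 / 12) := ⟨_, rfl⟩
  have h2 : 7 / 12 ≤ θ' := by rw [hθ']; exact le_max_right _ _
  have h3 : θ' < 2 / 3 := by rw [hθ']; exact max_lt hθ (by norm_num)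
  have h4 : θ ≤ θ' := by rw [hθ']; exact le_max_left _ _
  obtain ⟨lam, c, C₀, hlam, hc, hC₀, n₁, hn₁⟩ := ctrC hf hs K θ' (by linarith) h3
  obtain ⟨c₁, hc₁, n₂, hn₂⟩ := h1 K lam C₀ hlam hC₀
  obtain ⟨n₃, hn₃⟩ := extC (K := K) θ' h2 h3
  refine ⟨c₁ * c / 2, by positivity, n₁ + n₂ + n₃, ?_⟩
  intro n hn M a σ hM hMs hMθ ha hσ
  refine hn₃ n (by omega) (fun f => mob f = σ) (c₁ * c) (by positivity) ?_ M a hM hMs ?_ ha
  · intro M a hM hMs hn2 hMθ ha
    obtain ⟨N, w, L, Q, A, h5, h6, h7, h8⟩ := hn₁ n (by omega) M a hM hMs hn2 hMθ ha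
    refine le_trans ?_ (hn₂ n (by omega) N w L Q A (Cl K n M a) σ h5 h6 h8 hσ)
    calc c₁ * c * (Fintype.card K : ℝ) ^ (n - M.natDegree)
        = c₁ * (c * (Fintype.card K : ℝ) ^ (n - M.natDegree)) := by ring
      _ ≤ c₁ * (A.card * (Fintype.card K : ℝ) ^ L) := mul_le_mul_of_nonneg_left h7 hc₁.le
      _ = c₁ * A.card * (Fintype.card K : ℝ) ^ L := by ring
  · exact hMθ.trans (mul_le_mul_of_nonneg_right h4 (Nat.cast_nonneg _))

/-- **Almost primes of both parities in progressions of level `2 / 3`.** -/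
theorem almostC (h1 : S_t2W) (hf : S_fibC) (hs : S_smC) (K : Type) [Field K] [Fintype K] [CharP K 2]
    (θ : ℝ) (hθ : θ < 2 / 3) :
    ∃ κ c : ℝ, 0 < κ ∧ 0 < c ∧ ∃ n₀ : ℕ, ∀ n : ℕ, n₀ ≤ n → ∀ (M a : K[X]) (σ : ℤ), M.Monic →
      Squarefree M → (M.natDegree : ℝ) ≤ θ * n → IsCoprime a M → (σ = 1 ∨ σ = -1) →
      c * (Fintype.card K : ℝ) ^ (n - M.natDegree) / n ≤
        ((Cl K n M a).filter (fun f => mob f = σ ∧ Sft ⌊κ * n⌋₊ f)).card := by
  obtain ⟨θ', hθ'⟩ : ∃ θ' : ℝ, θ' = max θ (7 / 12) := ⟨_, rfl⟩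
  have h2 : 7 / 12 ≤ θ' := by rw [hθ']; exact le_max_right _ _
  have h3 : θ' < 2 / 3 := by rw [hθ']; exact max_lt hθ (by norm_num)
  have h4 : θ ≤ θ' := by rw [hθ']; exact le_max_left _ _
  obtain ⟨lam, c, C₀, hlam, hc, hC₀, n₁, hn₁⟩ := ctrC hf hs K θ' (by linarith) h3
  obtain ⟨κ, c₁, hκ, hc₁, n₂, hn₂⟩ := h1 K lam hlam
  obtain ⟨n₃, hn₃⟩ := extC (K := K) θ' h2 h3
  refine ⟨κ, c₁ * c / 2, hκ, by positivity, n₁ + n₂ + n₃ + 1, ?_⟩
  intro n hn M a σ hM hMs hMθ ha hσ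
  have hn0 : (0 : ℝ) < n := by exact_mod_cast (by omega : 0 < n)
  have h9 := hn₃ n (by omega) (fun f => mob f = σ ∧ Sft ⌊κ * n⌋₊ f) (c₁ * c / n) (by positivity) ?_
    M a hM hMs ?_ ha
  · refine le_trans (le_of_eq ?_) h9
    field_simp
  · intro M a hM hMs hn2 hMθ ha
    obtain ⟨N, w, L, Q, A, h5, h6, h7, h8⟩ := hn₁ n (by omega) M a hM hMs hn2 hMθ ha
    refine le_trans ?_ (hn₂ n (by omega) N w L Q A (Cl K n M a) σ h5 h6 hσ)
    calc c₁ * c / n * (Fintype.card K : ℝ) ^ (n - M.natDegree)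
        = c₁ * (c * (Fintype.card K : ℝ) ^ (n - M.natDegree)) / n := by ring
      _ ≤ c₁ * (A.card * (Fintype.card K : ℝ) ^ L) / n := by
          apply div_le_div_of_nonneg_right _ hn0.le
          exact mul_le_mul_of_nonneg_left h7 hc₁.le
      _ = c₁ * A.card * (Fintype.card K : ℝ) ^ L / n := by ring
  · exact hMθ.trans (mul_le_mul_of_nonneg_right h4 (Nat.cast_nonneg _))

end Pool.Agent.H560.AR
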