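import Mathlib
import Pool.Agent.H560.AR.Ext
import Pool.Agent.H560.SI.Top
import Pool.Agent.H348.AR.RtQ
import Pool.Agent.H249.AR.FibC
import Pool.Agent.H721.AR.T1W
import Pool.Agent.H599.AR.T2W
import Pool.Agent.H227.AR.Wbq
import Pool.Agent.H706.AR.Phi
import Pool.Agent.H962.AR.PrdC
import Pool.Agent.H694.AR.SMC

/-!
# AR: the theorems, level `2 / 3` (helper560)
-/

set_option autoImplicit false

namespace Pool.Agent.H560.AR

open Polynomial
open scoped Classical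
open Pool.Agent.H985.Chow (mob)
open Pool.Agent.H985.Par (Sft)
open Pool.Agent.H694.Typ (mem_Mn)
open Pool.Agent.H560.SI (mob_one_iff mob_neg_one_iff sft_iff)

theorem s_wbQ : S_wbQ :=
  Pool.Agent.H227.AR.wbQ Pool.Agent.H297.SI.grp Pool.Agent.H985.FC.winFs Pool.Agent.H985.FC.win4s

theorem s_smC : S_smC := Pool.Agent.H694.AR.smC Pool.Agent.H962.AR.prdC Pool.Agent.H706.AR.phi

/-- **Both signs.** -/
theorem signs (K : Type) [Field K] [Fintype K] [CharP K 2] (θ : ℝ) (hθ : θ < 2 / 3) :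
    ∃ c : ℝ, 0 < c ∧ ∃ n₀ : ℕ, ∀ n : ℕ, n₀ ≤ n → ∀ (M a : K[X]) (σ : ℤ), M.Monic → Squarefree M →
      (M.natDegree : ℝ) ≤ θ * n → IsCoprime a M → (σ = 1 ∨ σ = -1) →
      c * (Fintype.card K : ℝ) ^ (n - M.natDegree) ≤ ((Cl K n M a).filter (fun f => mob f = σ)).card :=
  signsC (Pool.Agent.H721.AR.t1W s_wbQ Pool.Agent.H348.AR.rtQ Pool.Agent.H985.Par.s_sw
    Pool.Agent.H155.SI.vl) Pool.Agent.H249.AR.fibC s_smC K θ hθ

/-- **Almost primes of both parities.** -/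
theorem almost (K : Type) [Field K] [Fintype K] [CharP K 2] (θ : ℝ) (hθ : θ < 2 / 3) :
    ∃ κ c : ℝ, 0 < κ ∧ 0 < c ∧ ∃ n₀ : ℕ, ∀ n : ℕ, n₀ ≤ n → ∀ (M a : K[X]) (σ : ℤ), M.Monic →
      Squarefree M → (M.natDegree : ℝ) ≤ θ * n → IsCoprime a M → (σ = 1 ∨ σ = -1) →
      c * (Fintype.card K : ℝ) ^ (n - M.natDegree) / n ≤
        ((Cl K n M a).filter (fun f => mob f = σ ∧ Sft ⌊κ * n⌋₊ f)).card :=
  almostC (Pool.Agent.H599.AR.t2W s_wbQ Pool.Agent.H348.AR.rtQ Pool.Agent.H155.SI.vl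
    Pool.Agent.H985.Par.s_sw) Pool.Agent.H249.AR.fibC s_smC K θ hθ

variable {K : Type} [Field K] [Fintype K]

lemma ncard_cl {n : ℕ} {M a : K[X]} (p : K[X] → Prop) [DecidablePred p] :
    ({f : K[X] | f.Monic ∧ f.natDegree = n ∧ M ∣ f - a ∧ p f}.ncard) = ((Cl K n M a).filter p).card := by
  rw [← Set.ncard_coe_finset]
  congr 1
  ext f
  unfold Cl
  rw [Finset.coe_filter]
  simp only [Set.mem_ofPred_eq, Finset.mem_filter, mem_Mn, and_assoc]

/-- **Almost primes with both parities in progressions.** -/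
theorem almost_top (K : Type) [Field K] [Fintype K] [CharP K 2] (θ : ℝ) (hθ : θ < 2 / 3) :
    ∃ κ c : ℝ, 0 < κ ∧ 0 < c ∧ ∃ n₀ : ℕ, ∀ n : ℕ, n₀ ≤ n → ∀ M a : K[X], M.Monic → Squarefree M →
      (M.natDegree : ℝ) ≤ θ * n → IsCoprime a M →
        c * (Fintype.card K : ℝ) ^ (n - M.natDegree) / n ≤
          {f : K[X] | f.Monic ∧ f.natDegree = n ∧ M ∣ f - a ∧ Squarefree f ∧
            Odd (Multiset.card (UniqueFactorizationMonoid.factors f)) ∧
            ∀ P : K[X], Irreducible P → P ∣ f → κ * n < (P.natDegree : ℝ)}.ncard ∧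
        c * (Fintype.card K : ℝ) ^ (n - M.natDegree) / n ≤
          {f : K[X] | f.Monic ∧ f.natDegree = n ∧ M ∣ f - a ∧ Squarefree f ∧
            Even (Multiset.card (UniqueFactorizationMonoid.factors f)) ∧
            ∀ P : K[X], Irreducible P → P ∣ f → κ * n < (P.natDegree : ℝ)}.ncard := by
  obtain ⟨κ, c, hκ, hc, n₀, hn₀⟩ := almost K θ hθ
  refine ⟨κ, c, hκ, hc, n₀, fun n hn M a hM hMs hMθ ha => ?_⟩
  have hfl : ∀ f : K[X], Sft ⌊κ * (n : ℝ)⌋₊ f ↔
      ∀ P : K[X], Irreducible P → P ∣ f → κ * n < (P.natDegree : ℝ) := by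
    intro f
    rw [sft_iff]
    have h0 : 0 ≤ κ * (n : ℝ) := by positivity
    exact forall_congr' fun P => imp_congr_right fun _ => imp_congr_right fun _ => Nat.floor_lt h0
  constructor
  · have h1 := hn₀ n hn M a (-1) hM hMs hMθ ha (Or.inr rfl)
    rw [← ncard_cl] at h1
    refine h1.trans (le_of_eq ?_)
    congr 2
    ext f
    simp only [Set.mem_ofPred_eq, mob_neg_one_iff, hfl, and_assoc]
  · have h1 := hn₀ n hn M a 1 hM hMs hMθ ha (Or.inl rfl)
    rw [← ncard_cl] at h1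
    refine h1.trans (le_of_eq ?_)
    congr 2
    ext f
    simp only [Set.mem_ofPred_eq, mob_one_iff, hfl, and_assoc]

/-- **Both signs of the Möbius function with a positive proportion**, and the bound for its sum. -/
theorem signs_top (K : Type) [Field K] [Fintype K] [CharP K 2] (θ : ℝ) (hθ : θ < 2 / 3) :
    ∃ c : ℝ, 0 < c ∧ ∃ n₀ : ℕ, ∀ n : ℕ, n₀ ≤ n → ∀ M a : K[X], M.Monic → Squarefree M →
      (M.natDegree : ℝ) ≤ θ * n → IsCoprime a M →
        c * (Fintype.card K : ℝ) ^ (n - M.natDegree) ≤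
          {f : K[X] | f.Monic ∧ f.natDegree = n ∧ M ∣ f - a ∧ mob f = 1}.ncard ∧
        c * (Fintype.card K : ℝ) ^ (n - M.natDegree) ≤
          {f : K[X] | f.Monic ∧ f.natDegree = n ∧ M ∣ f - a ∧ mob f = -1}.ncard ∧
        |∑ᶠ f ∈ {f : K[X] | f.Monic ∧ f.natDegree = n ∧ M ∣ f - a}, (mob f : ℝ)| ≤
          {f : K[X] | f.Monic ∧ f.natDegree = n ∧ M ∣ f - a ∧ Squarefree f}.ncard -
            c * (Fintype.card K : ℝ) ^ (n - M.natDegree) := by
  obtain ⟨c, hc, n₀, hn₀⟩ := signs K θ hθ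
  refine ⟨c, hc, n₀, fun n hn M a hM hMs hMθ ha => ?_⟩
  have h1 := hn₀ n hn M a 1 hM hMs hMθ ha (Or.inl rfl)
  have h2 := hn₀ n hn M a (-1) hM hMs hMθ ha (Or.inr rfl)
  have hcoe : {f : K[X] | f.Monic ∧ f.natDegree = n ∧ M ∣ f - a} = ((Cl K n M a : Finset K[X]) : Set K[X]) := by
    ext f
    unfold Cl
    rw [Finset.coe_filter]
    simp only [Set.mem_ofPred_eq, mem_Mn, and_assoc]
  rw [ncard_cl (fun f => mob f = 1), ncard_cl (fun f => mob f = -1), ncard_cl Squarefree, hcoe,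
    finsum_mem_coe_finset]
  refine ⟨h1, h2, ?_⟩
  have hval : ∀ f : K[X], (Squarefree f ∧ (mob f = 1 ∨ mob f = -1)) ∨ (¬ Squarefree f ∧ mob f = 0) := by
    intro f
    by_cases h4 : Squarefree f
    · left
      refine ⟨h4, ?_⟩
      unfold mob
      rw [if_pos h4]
      exact neg_one_pow_eq_or ℤ _
    · right
      refine ⟨h4, ?_⟩
      unfold mob
      rw [if_neg h4]
  have h3 : ∀ f : K[X], (mob f : ℝ) = (if mob f = 1 then (1 : ℝ) else 0) -
      (if mob f = -1 then (1 : ℝ) else 0) := by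
    intro f
    rcases hval f with ⟨-, h5 | h5⟩ | ⟨-, h5⟩ <;> rw [h5] <;> norm_num
  have h4 : ∀ f : K[X], (if Squarefree f then (1 : ℝ) else 0) = (if mob f = 1 then (1 : ℝ) else 0) +
      (if mob f = -1 then (1 : ℝ) else 0) := by
    intro f
    rcases hval f with ⟨h4, h5 | h5⟩ | ⟨h4, h5⟩
    · rw [h5, if_pos h4]; norm_num
    · rw [h5, if_pos h4]; norm_num
    · rw [h5, if_neg h4]; norm_num
  have e1 : ∀ (p : K[X] → Prop) [DecidablePred p], (((Cl K n M a).filter p).card : ℝ) =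
      ∑ f ∈ Cl K n M a, if p f then (1 : ℝ) else 0 := by
    intro p _
    rw [Finset.card_filter]
    push_cast
    rfl
  rw [e1 Squarefree, Finset.sum_congr rfl (fun f _ => h3 f), Finset.sum_congr rfl (fun f _ => h4 f),
    Finset.sum_sub_distrib, Finset.sum_add_distrib, ← e1 (fun f => mob f = 1),
    ← e1 (fun f => mob f = -1)]
  have h5 : 0 ≤ c * (Fintype.card K : ℝ) ^ (n - M.natDegree) := by positivity
  rw [abs_le]
  constructor <;> linarith

end Pool.Agent.H560.AR
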